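import Pool.Agent.KTB.StmtsKA

/-!
# Row CHN of squad KTB: the chain form of the exchange lemma
-/

set_option autoImplicit false

namespace Pool.Agent.KTB.H90

open Finset
open scoped Classical

variable {ι T : Type} [Fintype ι]

theorem chn_claim (hX : XtkStmt) (D : Dat ι T) (S₀ : Finset ι) (K : Finset T) :
    ∀ A, D.Reach A S₀ → ∀ S R, D.LL S → D.Valid S R → S \ R = A →
      (∃ k ∈ K, ∃ r ∈ R, D.x k r ≠ 0) →
      ∃ S' R', D.Reach S S' ∧ D.LL S' ∧ D.Valid S' R' ∧ S' \ R' = S₀ ∧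
        ∃ k ∈ K, ∃ r ∈ R', D.x k r ≠ 0 := by
  intro A hA
  induction hA using Relation.ReflTransGen.head_induction_on with
  | refl =>
    intro S R hS hV hSR ht
    exact ⟨S, R, Relation.ReflTransGen.refl, hS, hV, hSR, ht⟩
  | head h1 _ ih =>
    intro S R hS hV hSR ht
    obtain ⟨Z, hZ, hB⟩ := h1
    rw [← hSR] at hZ hB
    obtain ⟨X, hXZ, hXne, hXV, hV'⟩ := hX ι T D S R Z hS hV hZ
    obtain ⟨p, f, hVd⟩ := hXV
    obtain ⟨p', f', hVd'⟩ := hV
    have hRS : R ⊆ S := hVd'.2.1.1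
    have hZS : Z ⊆ S \ R := by
      obtain ⟨q, g, hq⟩ := hZ
      exact hq.2.1.1
    have e : (S \ X) \ (Z \ X ∪ R) = (S \ R) \ Z := by
      ext b
      simp only [Finset.mem_sdiff, Finset.mem_union]
      constructor
      · rintro ⟨⟨h1, h2⟩, h3⟩
        push Not at h3
        exact ⟨⟨h1, h3.2⟩, fun h => h2 (h3.1 h)⟩
      · rintro ⟨⟨h1, h2⟩, h3⟩
        exact ⟨⟨h1, fun h => h3 (hXZ h)⟩, fun h => by
          rcases h with h | h
          · exact h3 h.1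
          · exact h2 h⟩
    obtain ⟨k, hk, r, hr, hkr⟩ := ht
    obtain ⟨S', R', h2, h3, h4, h5, h6⟩ := ih (S \ X) (Z \ X ∪ R) hVd.2.2 hV' (e.trans hB.symm)
      ⟨k, hk, r, Finset.mem_union_right _ hr, hkr⟩
    exact ⟨S', R', Relation.ReflTransGen.head ⟨X, ⟨p, f, hVd⟩, rfl⟩ h2, h3, h4, h5, h6⟩

theorem chn (hX : XtkStmt) : ChnStmt := by
  intro ι T _ D S S₀ K hS hR
  revert hS
  induction hR using Relation.ReflTransGen.head_induction_on with
  | refl =>
    intro _ ht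
    obtain ⟨k, _, r, hr, hr', _⟩ := ht
    exact absurd hr hr'
  | @head A B h1 h2 ih =>
    intro hS ht
    obtain ⟨k, hk, r, hr, hr', hkr⟩ := ht
    obtain ⟨R, hV, hB⟩ := h1
    by_cases hrR : r ∈ R
    · exact chn_claim hX D S₀ K B h2 A R hS hV hB.symm ⟨k, hk, r, hrR, hkr⟩
    · have hV0 : D.Valid A R := hV
      obtain ⟨p, f, hVd⟩ := hV
      have hLB : D.LL B := by
        rw [hB]
        exact hVd.2.2
      obtain ⟨S', R', h3, h4, h5, h6, h7⟩ := ih hLB ⟨k, hk, r, by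
        rw [hB, Finset.mem_sdiff]
        exact ⟨hr, hrR⟩, hr', hkr⟩
      exact ⟨S', R', Relation.ReflTransGen.head ⟨R, hV0, hB⟩ h3, h4, h5, h6, h7⟩

end Pool.Agent.KTB.H90
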