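import Pool.Agent.KTB.StmtsKB

/-!
# Row DIM of squad KTB: dimensions
-/

set_option autoImplicit false

namespace Pool.Agent.KTB.H90

open Finset
open scoped Classical

variable {ι T : Type} [Fintype ι]

theorem R_mono (D : Dat ι T) {A B : Finset ι} (h : A ⊆ B) : D.R A ≤ D.R B := by
  intro ρ hρ
  exact ⟨hρ.1, fun a ha => hρ.2 a (fun ha' => ha (h ha'))⟩

theorem dim_e (D : Dat ι T) (A : Finset ι) (t y : ι) (h : ∀ ρ ∈ D.R A, ρ t = 0 → ρ y = 0) :
    ∃ c : ℚ, ∀ ρ ∈ D.R A, ρ y = c * ρ t := by
  by_cases h0 : ∀ ρ ∈ D.R A, ρ t = 0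
  · exact ⟨0, fun ρ hρ => by rw [h ρ hρ (h0 ρ hρ), zero_mul]⟩
  · push Not at h0
    obtain ⟨ρ₀, h1, h2⟩ := h0
    refine ⟨ρ₀ y / ρ₀ t, fun ρ hρ => ?_⟩
    have h3 : ρ - (ρ t / ρ₀ t) • ρ₀ ∈ D.R A :=
      (D.R A).sub_mem hρ ((D.R A).smul_mem _ h1)
    have h4 := h _ h3 (by
      simp only [Pi.sub_apply, Pi.smul_apply, smul_eq_mul]
      field_simp
      ring)
    simp only [Pi.sub_apply, Pi.smul_apply, smul_eq_mul] at h4
    have h5 : ρ y = ρ t / ρ₀ t * ρ₀ y := by linarith
    rw [h5]
    ring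

theorem dim : DimStmt := by
  intro ι T _ D
  refine ⟨?_, ?_, ?_, ?_, ?_⟩
  · intro A B h
    exact Submodule.finrank_mono (R_mono D h)
  · intro A B
    have h1 := Submodule.finrank_sup_add_finrank_inf_eq (D.R A) (D.R B)
    have h2 : D.R A ⊓ D.R B = D.R (A ∩ B) := by
      ext ρ
      constructor
      · rintro ⟨ha, hb⟩
        refine ⟨ha.1, fun a ha' => ?_⟩
        rw [Finset.mem_inter, not_and_or] at ha'
        rcases ha' with h | h
        · exact ha.2 a h
        · exact hb.2 a h
      · intro hρ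
        exact ⟨R_mono D Finset.inter_subset_left hρ, R_mono D Finset.inter_subset_right hρ⟩
    have h3 : D.R A ⊔ D.R B ≤ D.R (A ∪ B) :=
      sup_le (R_mono D Finset.subset_union_left) (R_mono D Finset.subset_union_right)
    have h4 := Submodule.finrank_mono h3
    rw [h2] at h1
    unfold Dat.nul
    omega
  · intro A a
    by_cases h0 : ∀ ρ ∈ D.R (insert a A), ρ a = 0
    · have h1 : D.R (insert a A) ≤ D.R A := by
        intro ρ hρ
        refine ⟨hρ.1, fun b hb => ?_⟩
        by_cases hba : b = a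
        · rw [hba]
          exact h0 ρ hρ
        · exact hρ.2 b (by rw [Finset.mem_insert, not_or]; exact ⟨hba, hb⟩)
      have := Submodule.finrank_mono h1
      unfold Dat.nul
      omega
    · push Not at h0
      obtain ⟨ρ₀, h1, h2⟩ := h0
      have h3 : D.R (insert a A) ≤ D.R A ⊔ Submodule.span ℚ {ρ₀} := by
        intro ρ hρ
        rw [Submodule.mem_sup]
        refine ⟨ρ - (ρ a / ρ₀ a) • ρ₀, ?_, (ρ a / ρ₀ a) • ρ₀,
          Submodule.smul_mem _ _ (Submodule.mem_span_singleton_self _), by abel⟩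
        have h4 : ρ - (ρ a / ρ₀ a) • ρ₀ ∈ D.R (insert a A) :=
          (D.R _).sub_mem hρ ((D.R _).smul_mem _ h1)
        refine ⟨h4.1, fun b hb => ?_⟩
        by_cases hba : b = a
        · rw [hba]
          simp only [Pi.sub_apply, Pi.smul_apply, smul_eq_mul]
          field_simp
          ring
        · exact h4.2 b (by rw [Finset.mem_insert, not_or]; exact ⟨hba, hb⟩)
      have h4 := Submodule.finrank_mono h3
      have h5 := Submodule.finrank_add_le_finrank_add_finrank (D.R A) (Submodule.span ℚ {ρ₀})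
      have h6 : Module.finrank ℚ (Submodule.span ℚ {ρ₀}) = 1 := by
        apply finrank_span_singleton
        intro h
        exact h2 (by rw [h]; rfl)
      unfold Dat.nul
      omega
  · intro A B hAB
    constructor
    · intro h ρ hρ b _ hb
      have h1 : D.R A = D.R B := Submodule.eq_of_le_of_finrank_eq (R_mono D hAB) h
      rw [← h1] at hρ
      exact hρ.2 b hb
    · intro h
      have h1 : D.R B ≤ D.R A := by
        intro ρ hρ
        refine ⟨hρ.1, fun b hb => ?_⟩
        by_cases hbB : b ∈ B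
        · exact h ρ hρ b hbB hb
        · exact hρ.2 b hbB
      have h2 : D.R A = D.R B := le_antisymm (R_mono D hAB) h1
      unfold Dat.nul
      rw [h2]
  · intro A t y h
    exact dim_e D A t y h

end Pool.Agent.KTB.H90
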