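import Pool.Agent.KTB.StmtsKD

set_option autoImplicit false

namespace Pool.Agent.KTB.H90

open Finset
open scoped Classical

theorem dsc (h1 : TwoStmt) (h2 : RmvStmt) (h3 : DstStmt) (h4 : FrcStmt) (h5 : XclStmt)
    (h6 : IpxStmt) : DscStmt := by
  intro ι T _ D S K P Q μ
  have key : ∀ n : ℕ, ∀ (S : Finset ι) (K P Q : Finset T), D.nul S = n → D.Mn S μ →
      D.IPC S K μ → P ⊆ K →
      (∀ y ∈ D.N S, ∑ q ∈ Q, D.x q y ≤ 1) →
      (∀ y ∈ D.N S, ∀ q ∈ Q, D.x q y ≠ 0 → ∃ p ∈ P, D.x p y ≠ 0) →
      (∀ q ∈ Q, ∃ y ∈ D.N S, D.x q y ≠ 0) → Q.card ≤ P.card := by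
    intro n
    induction n using Nat.strong_induction_on with
    | _ n ih =>
      intro S K P Q hn hM hI hPK g1 g2 g3
      have hμ : μ ≤ D.nul S := hM.2.2 S Relation.ReflTransGen.refl
      rcases Nat.lt_or_ge μ (D.nul S) with hlt | hge
      · -- there is a free point
        obtain ⟨F, hF3, hFr, _⟩ := h4 ι T D S K μ hI hlt
        obtain ⟨⟨k, t⟩, hkt⟩ : F.Nonempty := Finset.card_pos.mp (by omega)
        have hfr : D.Fr S K k t := hFr _ hkt
        obtain ⟨X, hX, htX⟩ := h5 ι T D S K μ k t hM.1 hI hfr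
        obtain ⟨_, hI'⟩ := h6 ι T D S X K μ k t hI hfr hX htX
        obtain ⟨_, _, _, hN, hnul, hMn⟩ := h2 ι T D S X t μ hX htX
        have hsub : D.N (S \ X) ⊆ D.N S := by
          rw [hN]; exact Finset.sdiff_subset
        have e1 : (Q.filter fun q => ∃ y ∈ D.N (S \ X), D.x q y ≠ 0).card ≤
            (P \ D.par S K t).card := by
          refine ih (D.nul (S \ X)) (by omega) (S \ X) (K \ D.par S K t) (P \ D.par S K t)
            (Q.filter fun q => ∃ y ∈ D.N (S \ X), D.x q y ≠ 0) rfl (hMn hM) hI'
            (Finset.sdiff_subset_sdiff hPK (Finset.Subset.refl _)) ?_ ?_ ?_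
          · intro y hy
            refine le_trans ?_ (g1 y (hsub hy))
            exact Finset.sum_le_sum_of_subset (Finset.filter_subset _ _)
          · intro y hy q hq hxy
            obtain ⟨p, hp, hpy⟩ := g2 y (hsub hy) q (Finset.mem_filter.mp hq).1 hxy
            refine ⟨p, Finset.mem_sdiff.mpr ⟨hp, fun hpar => ?_⟩, hpy⟩
            have hy' := hy
            rw [hN, Finset.mem_sdiff] at hy'
            have hsubE : D.E S p ⊆ D.sg S t := (Finset.mem_filter.mp hpar).2
            refine hy'.2 (hsubE ?_)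
            exact Finset.mem_filter.mpr ⟨(Finset.mem_filter.mp hy'.1).1, hpy⟩
          · intro q hq
            exact (Finset.mem_filter.mp hq).2
        have e2 := (h3 ι T D S K P Q μ k t hI hfr hPK g1 g2 g3).2.2
        have e3 : Q ⊆ (Q.filter fun q => ∃ y ∈ D.N (S \ X), D.x q y ≠ 0) ∪
            (Q.filter fun q => ∀ y ∈ D.N S, D.x q y ≠ 0 → y ∈ D.sg S t) := by
          intro q hq
          by_cases hc : ∃ y ∈ D.N (S \ X), D.x q y ≠ 0
          · exact Finset.mem_union_left _ (Finset.mem_filter.mpr ⟨hq, hc⟩)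
          · refine Finset.mem_union_right _ (Finset.mem_filter.mpr ⟨hq, ?_⟩)
            intro y hy hxy
            by_contra hsg
            exact hc ⟨y, by rw [hN]; exact Finset.mem_sdiff.mpr ⟨hy, hsg⟩, hxy⟩
        have e4 := Finset.card_le_card e3
        have e5 := Finset.card_union_le (Q.filter fun q => ∃ y ∈ D.N (S \ X), D.x q y ≠ 0)
          (Q.filter fun q => ∀ y ∈ D.N S, D.x q y ≠ 0 → y ∈ D.sg S t)
        have e6 := Finset.card_sdiff_add_card_inter P (D.par S K t)
        omega
      · -- no excess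
        have hexc : D.exc S K = 0 := by
          have := hI.sum
          omega
        have hE : ∀ k ∈ K, (D.E S k).card ≤ 2 := by
          intro k hk
          have := (Finset.sum_eq_zero_iff.mp hexc) k hk
          omega
        have d1 : (Q.biUnion fun q => (D.N S).filter fun y => D.x q y ≠ 0).card =
            ∑ q ∈ Q, ((D.N S).filter fun y => D.x q y ≠ 0).card := by
          refine Finset.card_biUnion ?_
          intro q hq q' hq' hne
          refine Finset.disjoint_left.mpr ?_
          intro y hy hy'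
          obtain ⟨hyN, hy1⟩ := Finset.mem_filter.mp hy
          obtain ⟨_, hy2⟩ := Finset.mem_filter.mp hy'
          have h := g1 y hyN
          have h' : ∑ r ∈ ({q, q'} : Finset T), D.x r y ≤ ∑ r ∈ Q, D.x r y := by
            refine Finset.sum_le_sum_of_subset ?_
            intro r hr
            rcases Finset.mem_insert.mp hr with rfl | hr
            · exact hq
            · rw [Finset.mem_singleton.mp hr]; exact hq'
          rw [Finset.sum_pair hne] at h'
          omega
        have d2 : 2 * Q.card ≤ ∑ q ∈ Q, ((D.N S).filter fun y => D.x q y ≠ 0).card := by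
          calc 2 * Q.card = ∑ q ∈ Q, 2 := by rw [Finset.sum_const, smul_eq_mul, mul_comm]
            _ ≤ _ := Finset.sum_le_sum fun q hq => h1 ι T D S q (g3 q hq)
        have d3 : (Q.biUnion fun q => (D.N S).filter fun y => D.x q y ≠ 0) ⊆
            P.biUnion (D.E S) := by
          intro y hy
          obtain ⟨q, hq, hy⟩ := Finset.mem_biUnion.mp hy
          obtain ⟨hyN, hxy⟩ := Finset.mem_filter.mp hy
          obtain ⟨p, hp, hpy⟩ := g2 y hyN q hq hxy
          exact Finset.mem_biUnion.mpr ⟨p, hp, Finset.mem_filter.mpr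
            ⟨(Finset.mem_filter.mp hyN).1, hpy⟩⟩
        have d4 : (P.biUnion (D.E S)).card ≤ 2 * P.card := by
          calc (P.biUnion (D.E S)).card ≤ ∑ p ∈ P, (D.E S p).card := Finset.card_biUnion_le
            _ ≤ ∑ p ∈ P, 2 := Finset.sum_le_sum fun p hp => hE p (hPK hp)
            _ = 2 * P.card := by rw [Finset.sum_const, smul_eq_mul, mul_comm]
        have d5 := Finset.card_le_card d3
        omega
  exact key (D.nul S) S K P Q rfl

end Pool.Agent.KTB.H90
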