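import Pool.Agent.KTB.StmtsKA

/-!
# Row XTK of squad KTB: the exchange lemma
-/

set_option autoImplicit false

namespace Pool.Agent.KTB.H90

open Finset
open scoped Classical

variable {ι T : Type} [Fintype ι]

/-- two solutions on `S \ R` with different values, a solution `l1` with `f l1 ≠ 0`, and the
functions `F`, `f` are independent -/
theorem xtk_main (hI : IdnStmt) (hR : RayStmt) (D : Dat ι T) (S R Z : Finset ι)
    (p q : ι → ℚ) (f g : (ι → ℚ) → ℚ) (hS : D.LL S) (hVR : D.Vd S R p f)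
    (hVZ : D.Vd (S \ R) Z q g) :
    ∃ X ⊆ Z, X.Nonempty ∧ D.Valid S X ∧ D.Valid (S \ X) (Z \ X ∪ R) := by
  obtain ⟨hRne, hRay, -⟩ := hVR
  obtain ⟨hZne, hRayZ, hLLZ⟩ := hVZ
  obtain ⟨-, ⟨s, -, hs2, -, -⟩, ⟨l0, hl0⟩, hSolR, -, -⟩ := hR ι T D S R p f hRay hRne
  obtain ⟨hI1, -, hI3, hI4, -⟩ := hI ι T D S
  obtain ⟨hRS, hRp, la0, lb0, hla0, hlb0, hab0⟩ := hRay
  obtain ⟨hZS, hZq, la, lb, hla, hlb, hab⟩ := hRayZ
  -- affine moves
  have hsol : ∀ l l' l'' : ι → ℚ, ∀ t : ℚ, D.Sol S l → D.Sol S l' → D.Sol S l'' →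
      D.Sol S (l + t • (l' - l'')) := by
    intro l l' l'' t h h' h''
    exact hI4 l h _ ((D.R S).smul_mem t (hI3 l'' l' h'' h'))
  have hf : ∀ l l' l'' : ι → ℚ, ∀ t : ℚ, D.Sol S l → D.Sol S l' → D.Sol S l'' →
      f (l + t • (l' - l'')) = f l + t * (f l' - f l'') := by
    intro l l' l'' t h h' h''
    have h1 := hs2 l _ h (hsol l l' l'' t h h' h'')
    have h2 := hs2 l'' l' h'' h'
    have h3 : l + t • (l' - l'') - l = t • (l' - l'') := by abel
    rw [h3, map_smul, smul_eq_mul] at h1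
    rw [h2]
    linarith
  obtain ⟨hl0S, hf0⟩ := (hSolR l0).1 hl0
  obtain ⟨l1, hl1, hf1⟩ : ∃ l1, D.Sol S l1 ∧ f l1 ≠ 0 := by
    by_cases h : f la0 = 0
    · exact ⟨lb0, hlb0, fun h' => hab0 (h.trans h'.symm)⟩
    · exact ⟨la0, hla0, h⟩
  obtain ⟨hlaS, hfa⟩ := (hSolR la).1 hla
  obtain ⟨hlbS, hfb⟩ := (hSolR lb).1 hlb
  obtain ⟨z0, hz0⟩ := hZne
  have hq0 := (hZq z0 hz0).1
  -- the functions `h z`
  obtain ⟨u, hu⟩ : ∃ u : ι → ℚ, ∀ z, u z = (l1 z / q z - l1 z0 / q z0) / f l1 := ⟨_, fun _ => rfl⟩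
  have huz : ∀ z ∈ Z, ∀ l, D.Sol S l → l z = q z * (l z0 / q z0 + u z * f l) := by
    intro z hz l hl
    have hqz := (hZq z hz).1
    have h1 : D.Sol (S \ R) (l + (-(f l / f l1)) • (l1 - l0)) := by
      rw [hSolR]
      refine ⟨hsol l l1 l0 _ hl hl1 hl0S, ?_⟩
      rw [hf l l1 l0 _ hl hl1 hl0S, hf0]
      field_simp
      ring
    have h2 : ∀ l', D.Sol (S \ R) l' → l' z / q z - l' z0 / q z0 = 0 := by
      intro l' hl'
      rw [(hZq z hz).2 l' hl', (hZq z0 hz0).2 l' hl', mul_div_cancel_left₀ _ hqz.ne',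
        mul_div_cancel_left₀ _ hq0.ne', sub_self]
    have h3 := h2 _ h1
    have h4 := h2 _ hl0
    simp only [Pi.add_apply, Pi.smul_apply, Pi.sub_apply, smul_eq_mul] at h3
    have h5 : l z / q z - l z0 / q z0 = u z * f l := by
      rw [hu]
      have e : (l z + -(f l / f l1) * (l1 z - l0 z)) / q z -
          (l z0 + -(f l / f l1) * (l1 z0 - l0 z0)) / q z0 =
          (l z / q z - l z0 / q z0) - (f l / f l1) * ((l1 z / q z - l1 z0 / q z0) -
            (l0 z / q z - l0 z0 / q z0)) := by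
        field_simp
        ring
      rw [e, h4] at h3
      have e2 : (l1 z / q z - l1 z0 / q z0) / f l1 * f l =
          (f l / f l1) * ((l1 z / q z - l1 z0 / q z0) - 0) := by
        field_simp
        ring
      rw [e2]
      linarith
    have h6 : l z = q z * (l z / q z) := by
      field_simp
    rw [h6]
    congr 1
    linarith
  obtain ⟨m, hm, hmin⟩ := Z.exists_min_image u ⟨z0, hz0⟩
  obtain ⟨F, hF⟩ : ∃ F : (ι → ℚ) → ℚ, ∀ l, F l = l z0 / q z0 + u m * f l := ⟨_, fun _ => rfl⟩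
  have hlz : ∀ z ∈ Z, ∀ l, D.Sol S l → l z = q z * (F l + (u z - u m) * f l) := by
    intro z hz l hl
    rw [huz z hz l hl, hF]
    ring
  have hFa : F la = g la := by
    rw [hF, hfa, (hZq z0 hz0).2 la hla, mul_div_cancel_left₀ _ hq0.ne']
    ring
  have hFb : F lb = g lb := by
    rw [hF, hfb, (hZq z0 hz0).2 lb hlb, mul_div_cancel_left₀ _ hq0.ne']
    ring
  have hFab : F la - F lb ≠ 0 := by
    rw [hFa, hFb]
    exact sub_ne_zero.mpr hab
  have hindep : ∀ a b c : ℚ, (∀ l, D.Sol S l → a * F l + b * f l = c) → a = 0 ∧ b = 0 := by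
    intro a b c h
    have h1 := h la hlaS
    have h2 := h lb hlbS
    rw [hfa] at h1
    rw [hfb] at h2
    have h3 : a * (F la - F lb) = 0 := by linarith
    have ha : a = 0 := by
      rcases mul_eq_zero.mp h3 with h4 | h4
      · exact h4
      · exact absurd h4 hFab
    refine ⟨ha, ?_⟩
    have h5 := h la0 hla0
    have h6 := h lb0 hlb0
    rw [ha] at h5 h6
    have h7 : b * (f la0 - f lb0) = 0 := by linarith
    rcases mul_eq_zero.mp h7 with h8 | h8
    · exact h8
    · exact absurd h8 (sub_ne_zero.mpr hab0)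
  obtain ⟨X, hX⟩ : ∃ X : Finset ι, X = Z.filter (fun z => u z = u m) := ⟨_, rfl⟩
  have hXZ : X ⊆ Z := by
    rw [hX]
    exact Finset.filter_subset _ _
  have hmX : m ∈ X := by
    rw [hX, Finset.mem_filter]
    exact ⟨hm, rfl⟩
  have hZR : ∀ z ∈ Z, z ∈ S ∧ z ∉ R := fun z hz => Finset.mem_sdiff.mp (hZS hz)
  have hpos : ∀ z ∈ Z, z ∉ X → 0 < u z - u m := by
    intro z hz hzX
    have h1 := hmin z hz
    have h2 : u z ≠ u m := by
      intro h
      exact hzX (by rw [hX, Finset.mem_filter]; exact ⟨hz, h⟩)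
    have h3 : u m < u z := lt_of_le_of_ne h1 (Ne.symm h2)
    linarith
  have hRayX : D.Ray S X q F := by
    refine ⟨fun z hz => (hZR z (hXZ hz)).1, ?_, la, lb, hlaS, hlbS, ?_⟩
    · intro r hr
      have hrZ := hXZ hr
      refine ⟨(hZq r hrZ).1, fun l hl => ?_⟩
      have h1 := hlz r hrZ l hl
      have h2 : u r = u m := by
        rw [hX, Finset.mem_filter] at hr
        exact hr.2
      rw [h1, h2]
      ring
    · exact fun h => hFab (by rw [h, sub_self])
  obtain ⟨hXa, -, hXc, hXsol, -, hXe⟩ := hR ι T D S X q F hRayX ⟨m, hmX⟩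
  refine ⟨X, hXZ, ⟨m, hmX⟩, ⟨q, F, ⟨m, hmX⟩, hRayX, hXc, ?_⟩, ?_⟩
  · -- no leaf
    intro W i hWi
    by_contra hcon
    have hleaf : ∀ j, D.Priv (S \ X) W j → j = i := by
      intro j hj
      by_contra hji
      exact hcon ⟨j, hji, hj⟩
    obtain ⟨-, hcpos⟩ := hXe hS W i hWi hleaf
    have hW1 := hXa W i hWi
    obtain ⟨c, hc⟩ : ∃ c : ℚ, c = ∑ r ∈ X, (D.x i r : ℚ) * q r := ⟨_, rfl⟩
    rw [← hc] at hcpos
    rw [← hc] at hW1
    obtain ⟨hWSX, hW2, hW3⟩ := hWi
    obtain ⟨hWS, hWX⟩ := Finset.mem_sdiff.mp hWSX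
    have hWR : W ∉ R := by
      intro hWR
      have h1 := hindep c (p W) 1 (fun l hl => by
        have h2 := hW1 l hl
        have h3 := (hRp W hWR).2 l hl
        linarith)
      linarith [h1.1]
    have hWZ : W ∉ Z := by
      intro hWZ
      have h1 := hindep (q W + c) (q W * (u W - u m)) 1 (fun l hl => by
        have h2 := hW1 l hl
        have h3 := hlz W hWZ l hl
        linarith)
      have h4 := (hZq W hWZ).1
      linarith [h1.1]
    have hpriv : D.Priv ((S \ R) \ Z) W i := by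
      refine ⟨?_, hW2, ?_⟩
      · rw [Finset.mem_sdiff, Finset.mem_sdiff]
        exact ⟨⟨hWS, hWR⟩, hWZ⟩
      · intro b hb hbW
        rw [Finset.mem_sdiff, Finset.mem_sdiff] at hb
        refine hW3 b ?_ hbW
        rw [Finset.mem_sdiff]
        exact ⟨hb.1.1, fun h => hb.2 (hXZ h)⟩
    obtain ⟨j, hji, hj1, hj2, hj3⟩ := hLLZ.2 W i hpriv
    -- the identity of `j`
    have hid : ∀ l, D.Sol S l → l W + ∑ z ∈ Z, (D.x j z : ℚ) * l z +
        ∑ r ∈ R, (D.x j r : ℚ) * l r = 1 := by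
      intro l hl
      rw [← hI1 l hl j, ← Finset.sum_sdiff hRS, ← Finset.sum_sdiff hZS]
      congr 2
      rw [Finset.sum_eq_single W]
      · rw [hj2]
        simp
      · intro b hb hbW
        rw [hj3 b hb hbW]
        simp
      · intro h
        exact absurd hj1 h
    have hcoef := hindep (∑ z ∈ Z, (D.x j z : ℚ) * q z - c)
      (∑ z ∈ Z, (D.x j z : ℚ) * (q z * (u z - u m)) + ∑ r ∈ R, (D.x j r : ℚ) * p r) 0
      (fun l hl => by
        have h1 := hid l hl
        have h2 := hW1 l hl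
        have h3 : ∑ z ∈ Z, (D.x j z : ℚ) * l z = (∑ z ∈ Z, (D.x j z : ℚ) * q z) * F l +
            (∑ z ∈ Z, (D.x j z : ℚ) * (q z * (u z - u m))) * f l := by
          rw [Finset.sum_mul, Finset.sum_mul, ← Finset.sum_add_distrib]
          apply Finset.sum_congr rfl
          intro z hz
          rw [hlz z hz l hl]
          ring
        have h4 : ∑ r ∈ R, (D.x j r : ℚ) * l r = (∑ r ∈ R, (D.x j r : ℚ) * p r) * f l := by
          rw [Finset.sum_mul]
          apply Finset.sum_congr rfl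
          intro r hr
          rw [(hRp r hr).2 l hl]
          ring
        rw [h3, h4] at h1
        linarith)
    have hnn1 : ∀ z ∈ Z, 0 ≤ (D.x j z : ℚ) * (q z * (u z - u m)) := by
      intro z hz
      have h1 := hmin z hz
      have h2 := (hZq z hz).1
      exact mul_nonneg (Nat.cast_nonneg _) (mul_nonneg h2.le (by linarith))
    have hnn2 : ∀ r ∈ R, 0 ≤ (D.x j r : ℚ) * p r := by
      intro r hr
      exact mul_nonneg (Nat.cast_nonneg _) (hRp r hr).1.le
    have hs1 := Finset.sum_nonneg hnn1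
    have hs3 := Finset.sum_nonneg hnn2
    have hz1 : ∑ z ∈ Z, (D.x j z : ℚ) * (q z * (u z - u m)) = 0 := by linarith [hcoef.2]
    have hz2 : ∑ r ∈ R, (D.x j r : ℚ) * p r = 0 := by linarith [hcoef.2]
    rw [Finset.sum_eq_zero_iff_of_nonneg hnn1] at hz1
    rw [Finset.sum_eq_zero_iff_of_nonneg hnn2] at hz2
    refine hji (hleaf j ⟨hWSX, hj2, ?_⟩)
    intro b hb hbW
    obtain ⟨hbS, hbX⟩ := Finset.mem_sdiff.mp hb
    by_cases hbR : b ∈ R
    · have h1 := hz2 b hbR
      rcases mul_eq_zero.mp h1 with h2 | h2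
      · exact_mod_cast h2
      · exact absurd h2 (hRp b hbR).1.ne'
    · by_cases hbZ : b ∈ Z
      · have h1 := hz1 b hbZ
        rcases mul_eq_zero.mp h1 with h2 | h2
        · exact_mod_cast h2
        · exact absurd h2 (mul_pos (hZq b hbZ).1 (hpos b hbZ hbX)).ne'
      · refine hj3 b ?_ hbW
        rw [Finset.mem_sdiff, Finset.mem_sdiff]
        exact ⟨⟨hbS, hbR⟩, hbZ⟩
  · -- the second set
    refine ⟨fun r => if r ∈ R then p r else q r * (u r - u m), f, ?_, ⟨?_, ?_, ?_⟩, ?_⟩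
    · obtain ⟨r, hr⟩ := hRne
      exact ⟨r, Finset.mem_union_right _ hr⟩
    · intro b hb
      rw [Finset.mem_sdiff]
      rcases Finset.mem_union.mp hb with h | h
      · obtain ⟨h1, h2⟩ := Finset.mem_sdiff.mp h
        exact ⟨(hZR b h1).1, h2⟩
      · exact ⟨hRS h, fun h' => (hZR b (hXZ h')).2 h⟩
    · intro r hr
      rcases Finset.mem_union.mp hr with h | h
      · obtain ⟨h1, h2⟩ := Finset.mem_sdiff.mp h
        have h3 : r ∉ R := (hZR r h1).2
        simp only [h3, if_false]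
        refine ⟨mul_pos (hZq r h1).1 (hpos r h1 h2), ?_⟩
        intro l hl
        obtain ⟨h4, h5⟩ := (hXsol l).1 hl
        rw [hlz r h1 l h4, h5]
        ring
      · simp only [h, if_true]
        refine ⟨(hRp r h).1, ?_⟩
        intro l hl
        obtain ⟨h4, -⟩ := (hXsol l).1 hl
        exact (hRp r h).2 l h4
    · -- two solutions with `F = 0` and different `f`
      have key : ∀ l, D.Sol S l → ∃ l', D.Sol (S \ X) l' ∧ f l' = f l := by
        intro l hl
        refine ⟨l + (-(F l / (F la - F lb))) • (la - lb), ?_, ?_⟩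
        · rw [hXsol]
          refine ⟨hsol l la lb _ hl hlaS hlbS, ?_⟩
          rw [hF, hf l la lb _ hl hlaS hlbS]
          simp only [Pi.add_apply, Pi.smul_apply, Pi.sub_apply, smul_eq_mul]
          have e : (l z0 + -(F l / (F la - F lb)) * (la z0 - lb z0)) / q z0 +
              u m * (f l + -(F l / (F la - F lb)) * (f la - f lb)) =
              F l - (F l / (F la - F lb)) * (F la - F lb) := by
            rw [hF la, hF lb, hF l]
            ring
          rw [e, div_mul_cancel₀ _ hFab, sub_self]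
        · rw [hf l la lb _ hl hlaS hlbS, hfa, hfb]
          ring
      obtain ⟨l2, hl2, hf2⟩ := key la0 hla0
      obtain ⟨l3, hl3, hf3⟩ := key lb0 hlb0
      exact ⟨l2, l3, hl2, hl3, by rw [hf2, hf3]; exact hab0⟩
    · have e : (S \ X) \ (Z \ X ∪ R) = (S \ R) \ Z := by
        ext b
        simp only [Finset.mem_sdiff, Finset.mem_union]
        constructor
        · rintro ⟨⟨h1, h2⟩, h3⟩
          push Not at h3
          exact ⟨⟨h1, h3.2⟩, fun h => h2 (h3.1 h)⟩
        · rintro ⟨⟨h1, h2⟩, h3⟩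
          exact ⟨⟨h1, fun h => h3 (hXZ h)⟩, fun h => by
            rcases h with h | h
            · exact h3 h.1
            · exact h2 h⟩
      rw [e]
      exact hLLZ

theorem xtk (hI : IdnStmt) (hR : RayStmt) : XtkStmt := by
  intro ι T _ D S R Z hS hVR hVZ
  obtain ⟨p, f, hVR⟩ := hVR
  obtain ⟨q, g, hVZ⟩ := hVZ
  exact xtk_main hI hR D S R Z p q f g hS hVR hVZ

end Pool.Agent.KTB.H90
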